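import Pool.Agent.H678R3.BSD.Height2

/-!
# The Birch–Swinnerton-Dyer product of almost all elliptic curves is `(log x) ^ (1/2 + o(1))`

`FX X` is the set `{(A, B) ∈ 𝓕 : H(E_{A,B}) ≤ X}` of the problem.  `EP A B x` is the product of
`#E(F_p) / p` over the primes `p ≤ x` which do not divide twice the discriminant; the conjecture of
Birch and Swinnerton-Dyer in its original form says that it has the order of magnitude
`(log x) ^ (rank E)`.  For `16 ≤ x ≤ X ^ (1/9)` it lies between `(log x) ^ (1/2 - δ)` and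
`(log x) ^ (1/2 + δ)` for all curves of height at most `X` but a proportion
`O(1 / (δ ^ 2 log log x))`; for the curves `y² = x³ + A x + t²` with the marked point `(0, t)` the
exponent is `3/2`.
-/

set_option autoImplicit false

open Finset Pool.Agent.H678R3.BSD.W2

namespace Pool.Agent.Results.MP_788af2_nt.ProductNormalOrder

open Classical in
theorem result :
    (∃ C : ℝ, 0 < C ∧ ∀ δ : ℝ, 0 < δ → ∀ x : ℕ, 16 ≤ x → ∀ X : ℝ, (x : ℝ) ^ 9 ≤ X →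
      (({q ∈ FX X | ¬ (Real.log x ^ (1 / 2 - δ) ≤ EP q.1 q.2 x ∧
        EP q.1 q.2 x ≤ Real.log x ^ (1 / 2 + δ))}.ncard : ℕ) : ℝ) ≤
        C / (δ ^ 2 * Real.log (Real.log x)) * ((FX X).ncard : ℝ)) ∧
    (∃ C : ℝ, 0 < C ∧ ∀ δ : ℝ, 0 < δ → ∀ x : ℕ, 16 ≤ x → ∀ lo hi : Fin 2 → ℤ,
      (∀ i, (x : ℤ) ^ 3 ≤ hi i - lo i) →
      (((boxS lo hi).filter fun n => ¬ (Real.log x ^ ((3 : ℝ) / 2 - δ) ≤ EP (n 0) (n 1 ^ 2) x ∧
        EP (n 0) (n 1 ^ 2) x ≤ Real.log x ^ ((3 : ℝ) / 2 + δ))).card : ℝ) ≤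
        C / (δ ^ 2 * Real.log (Real.log x)) *
          (((hi 0 - lo 0 : ℤ) : ℝ) * ((hi 1 - lo 1 : ℤ) : ℝ))) := by
  refine ⟨by_height_proportion, ?_⟩
  obtain ⟨C, hC0, hC⟩ := normal_order 1 le_rfl
  refine ⟨C, hC0, fun δ hδ x hx lo hi hH => ?_⟩
  have h := hC δ hδ x hx lo hi hH
  have e1 : ((1 : ℕ) : ℝ) + 1 / 2 - δ = 3 / 2 - δ := by push_cast; ring
  have e2 : ((1 : ℕ) : ℝ) + 1 / 2 + δ = 3 / 2 + δ := by push_cast; ring
  rw [e1, e2] at h
  exact h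

end Pool.Agent.Results.MP_788af2_nt.ProductNormalOrder
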